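import Pool.Agent.L5helper98.NG.Defs

/-!
# ZB: the normalisation
-/

set_option autoImplicit false

open MeasureTheory ProbabilityTheory Filter Topology Set
open scoped ENNReal

namespace Pool.Agent.L5helper50.NG

open Pool.Agent.L5helper98.NG

theorem Zf_meas {d : ℕ} {Ω : Type} [MeasurableSpace Ω] {P : Measure Ω} [IsProbabilityMeasure P]
    {X : ℕ → Ω → (Fin d → ℝ) → ℝ} (hX : Fields P X) (β : ℝ) (n : ℕ) : Measurable (Zf P X β n) := by
  have hu : Measurable (Function.uncurry fun (x : Fin d → ℝ) (o : Ω) =>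
      Real.exp (β * S X n o x)) := by
    apply measurable_uncurry_of_continuous_of_measurable
    · intro o
      unfold S
      have h1 : Continuous fun x => ∑ k ∈ Finset.range n, X k o x :=
        continuous_finsetSum _ fun k _ => hX.cont k o
      fun_prop
    · intro x
      unfold S
      have h1 : Measurable fun o => ∑ k ∈ Finset.range n, X k o x :=
        Finset.measurable_fun_sum _ fun k _ => hX.meas k x
      exact (h1.const_mul β).exp
  have h2 := hu.stronglyMeasurable.integral_prod_right (ν := P)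
  exact h2.measurable

theorem ZB_holds (hMG : St_MG) : St_ZB := by
  intro d Ω _ P _ X hX β hβ
  refine ⟨Zf_meas hX β, ?_⟩
  obtain ⟨C1, hC1, h1⟩ := hMG d Ω P X hX β hβ.le
  obtain ⟨C2, h2⟩ := hX.cov_diag
  refine ⟨C1 + β ^ 2 / 2 * |C2|, by positivity, ?_⟩
  intro n x hx
  have hint : ∀ f : (Fin d → ℝ) → ℝ, ∫ y, f y ∂(ENNReal.ofReal β • Measure.dirac x) = β * f x := by
    intro f
    rw [integral_smul_measure, integral_dirac, ENNReal.toReal_ofReal hβ.le, smul_eq_mul]
  have h3 := h1 n (ENNReal.ofReal β • Measure.dirac x) (by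
    rw [Measure.smul_apply, Measure.dirac_apply' _ (by
      unfold cube; exact measurableSet_Icc.compl)]
    rw [Set.indicator_of_notMem (by simpa using hx), smul_zero]) (by
    rw [Measure.smul_apply, Measure.dirac_apply' _ MeasurableSet.univ]
    simp)
  simp only [hint] at h3
  obtain ⟨h4, h5, h6⟩ := h3
  have h7 := abs_le.1 ((h2 n x hx).trans (le_abs_self C2))
  have hb : 0 ≤ β ^ 2 / 2 := by positivity
  have h8 : β ^ 2 / 2 * (-|C2|) ≤ β ^ 2 / 2 * (Cv P X n x x - Cv P X n 0 0) :=
    mul_le_mul_of_nonneg_left h7.1 hb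
  have h9 : β ^ 2 / 2 * (Cv P X n x x - Cv P X n 0 0) ≤ β ^ 2 / 2 * |C2| :=
    mul_le_mul_of_nonneg_left h7.2 hb
  refine ⟨h4, ?_, ?_⟩
  · refine le_trans (Real.exp_le_exp.2 ?_) h5
    nlinarith
  · refine le_trans h6 (Real.exp_le_exp.2 ?_)
    nlinarith

end Pool.Agent.L5helper50.NG
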